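import Pool.Agent.Helper86.Pic.ALG

set_option autoImplicit false

/-!
# Module UNF : unfolding and strip unfolding for the Picard modular group
(port of `Pool.Agent.Helper50.Lor.UNF1`, `UNF2`)
-/

namespace Pool.Agent.Helper34.Pic

open MeasureTheory Topology
open Pool.Agent.Helper10.Pic
open Pool.Agent.Helper86.Pic
open scoped ComplexConjugate

/-- inputs from the modules DIFF and DISC -/
structure Inp : Prop where
  meas : ∀ g : V3 ≃ₗ[ℂ] V3, Measurable (act g)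
  mp : ∀ g : V3 ≃ₗ[ℂ] V3, g ∈ UG → MeasurePreserving (act g) hyp hyp
  count : Countable Gam
  lf : ∀ p : Pt, p ∈ SD → ∀ C a : ℝ, 0 < a → ∃ U ∈ 𝓝 p, U ⊆ SD ∧
      {γ : Gam | ∃ q ∈ U, act γ q ∈ Sieg C a}.Finite

theorem continuous_hgt' : Continuous hgt := by
  unfold hgt
  fun_prop

theorem measurableSet_SD : MeasurableSet SD :=
  measurableSet_lt measurable_const continuous_hgt'.measurable

theorem ae_SD : ∀ᵐ p ∂hyp, p ∈ SD :=
  (withDensity_absolutelyContinuous _ _).ae_le (ae_restrict_mem measurableSet_SD)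

theorem sum_kap {κ : Pt → ℝ} {C a : ℝ} (hK : Kap κ C a) {p : Pt}
    (hp : p ∈ SD) : ∑' γ : Gam, ENNReal.ofReal (κ (act γ p)) = 1 := by
  have h := hK.sum p hp
  rw [← ENNReal.ofReal_tsum_of_nonneg (fun γ => hK.nonneg _) h.summable, h.tsum_eq,
    ENNReal.ofReal_one]

theorem mem_UG {g : V3 ≃ₗ[ℂ] V3} (h : g ∈ Gam) : g ∈ UG := h.1

theorem unfold_aux (hA : Inp) {κ : Pt → ℝ} {C a : ℝ} (hK : Kap κ C a)
    (η F : Pt → ENNReal) (hη : Measurable η) (hF : Measurable F)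
    (hinv : ∀ γ ∈ Gam, ∀ p ∈ SD, F (act γ p) = F p) :
    ∫⁻ p, η p * F p ∂hyp
      = ∫⁻ p, ENNReal.ofReal (κ p) * (∑' γ : Gam, η (act γ p)) * F p ∂hyp := by
  have hcount := hA.count
  have hact := hA.meas
  have hκ : Measurable (fun p => ENNReal.ofReal (κ p)) :=
    ENNReal.measurable_ofReal.comp hK.smooth.continuous.measurable
  calc ∫⁻ p, η p * F p ∂hyp
      = ∫⁻ p, ∑' γ : Gam, ENNReal.ofReal (κ (act γ p)) * η p * F p ∂hyp := by
        refine lintegral_congr_ae ?_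
        filter_upwards [ae_SD] with p hp
        simp only [mul_assoc]
        rw [ENNReal.tsum_mul_right, sum_kap hK hp, one_mul]
    _ = ∑' γ : Gam, ∫⁻ p, ENNReal.ofReal (κ (act γ p)) * η p * F p ∂hyp := by
        refine lintegral_tsum fun γ => ?_
        exact (((hκ.comp (hact γ)).mul hη).mul hF).aemeasurable
    _ = ∑' γ : Gam, ∫⁻ p, ENNReal.ofReal (κ p) * η (act (γ⁻¹ : Gam) p) * F p ∂hyp := by
        refine tsum_congr fun γ => ?_
        have hm : Measurable (fun p => ENNReal.ofReal (κ (act (γ : V3 ≃ₗ[ℂ] V3) p))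
            * η p * F p) :=
          ((hκ.comp (hact γ)).mul hη).mul hF
        rw [← (hA.mp ((γ⁻¹ : Gam) : V3 ≃ₗ[ℂ] V3)
          (mem_UG (γ⁻¹ : Gam).2)).lintegral_comp hm]
        refine lintegral_congr_ae ?_
        filter_upwards [ae_SD] with p hp
        show ENNReal.ofReal (κ (act γ (act ((γ⁻¹ : Gam) : V3 ≃ₗ[ℂ] V3) p)))
          * η (act ((γ⁻¹ : Gam) : V3 ≃ₗ[ℂ] V3) p)
          * F (act ((γ⁻¹ : Gam) : V3 ≃ₗ[ℂ] V3) p) = _
        have h1 : act (γ : V3 ≃ₗ[ℂ] V3) (act ((γ⁻¹ : Gam) : V3 ≃ₗ[ℂ] V3) p) = p := by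
          rw [← act_mul _ (mem_UG (γ⁻¹ : Gam).2) hp, ← Subgroup.coe_mul,
            mul_inv_cancel, Subgroup.coe_one, act_one]
        rw [h1, hinv _ (γ⁻¹ : Gam).2 p hp]
    _ = ∑' γ : Gam, ∫⁻ p, ENNReal.ofReal (κ p) * η (act γ p) * F p ∂hyp :=
        (Equiv.inv Gam).tsum_eq
          (fun γ : Gam => ∫⁻ p, ENNReal.ofReal (κ p) * η (act (γ : V3 ≃ₗ[ℂ] V3) p)
            * F p ∂hyp)
    _ = ∫⁻ p, ∑' γ : Gam, ENNReal.ofReal (κ p) * η (act γ p) * F p ∂hyp := by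
        refine (lintegral_tsum fun γ => ?_).symm
        exact ((hκ.mul (hη.comp (hact γ))).mul hF).aemeasurable
    _ = _ := by
        refine lintegral_congr fun p => ?_
        rw [ENNReal.tsum_mul_right, ENNReal.tsum_mul_left]

/-! ## The cell -/

theorem s3p : 0 < Real.sqrt 3 := Real.sqrt_pos.2 (by norm_num)

theorem s3sq : Real.sqrt 3 * Real.sqrt 3 = 3 := Real.mul_self_sqrt (by norm_num)

/-- coordinates -/
noncomputable def crd (p : Pt) : Fin 3 → ℝ :=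
  ![p.2.im / Real.sqrt 3 - p.2.re / 3, -(2 / 3) * p.2.re, p.1.im / Real.sqrt 3]

theorem crd_zero (p : Pt) : crd p 0 = p.2.im / Real.sqrt 3 - p.2.re / 3 := rfl
theorem crd_one (p : Pt) : crd p 1 = -(2 / 3) * p.2.re := rfl
theorem crd_two (p : Pt) : crd p 2 = p.1.im / Real.sqrt 3 := rfl

theorem measurable_crd : Measurable crd := by
  rw [measurable_pi_iff]
  intro i
  have h1 : Measurable fun p : Pt => p.2.im := Complex.measurable_im.comp measurable_snd
  have h2 : Measurable fun p : Pt => p.2.re := Complex.measurable_re.comp measurable_snd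
  have h3 : Measurable fun p : Pt => p.1.im := Complex.measurable_im.comp measurable_fst
  fin_cases i
  · exact (h1.div_const _).sub (h2.div_const _)
  · exact h2.const_mul _
  · exact h3.div_const _

theorem th_mul_re (x y : ℝ) : (th * (x + y * om)).re = -(3 / 2) * y := by
  have := s3sq
  simp only [th, om, Complex.mul_re, Complex.add_re, Complex.add_im, Complex.mul_im,
    Complex.ofReal_re, Complex.ofReal_im]
  linear_combination (-(y / 2)) * this

theorem th_mul_im (x y : ℝ) : (th * (x + y * om)).im = Real.sqrt 3 * (x - y / 2) := by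
  simp only [th, om, Complex.mul_re, Complex.add_re, Complex.add_im, Complex.mul_im,
    Complex.ofReal_re, Complex.ofReal_im]
  ring

theorem crd_cellpt (x : Fin 3 → ℝ) (u : ℝ) : crd (cellpt x u) = x := by
  have h := s3p.ne'
  ext i
  fin_cases i
  · show (cellpt x u).2.im / Real.sqrt 3 - (cellpt x u).2.re / 3 = x 0
    unfold cellpt
    simp only
    rw [th_mul_re, th_mul_im]
    field_simp
    ring
  · show -(2 / 3) * (cellpt x u).2.re = x 1
    unfold cellpt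
    simp only
    rw [th_mul_re]
    ring
  · show (cellpt x u).1.im / Real.sqrt 3 = x 2
    unfold cellpt
    simp only
    field_simp

theorem hgt_cellpt (x : Fin 3 → ℝ) (u : ℝ) : hgt (cellpt x u) = u := by
  unfold hgt cellpt
  simp only
  ring

/-- the half-open unit cube -/
def cube : Set (Fin 3 → ℝ) := Set.univ.pi fun _ => Set.Ico (0 : ℝ) 1

theorem measurableSet_cube : MeasurableSet cube :=
  MeasurableSet.univ_pi fun _ => measurableSet_Ico

/-- the half-open cell -/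
def cellSet : Set Pt := crd ⁻¹' cube

theorem measurableSet_cellSet : MeasurableSet cellSet := measurable_crd measurableSet_cube

theorem T_eq_imp {a b : ℂ} (hb : b = 0) (ha : a = 0) : T a b = 1 := by
  rw [hb, ha, T_zero]

/-- the Heisenberg translations in integer coordinates -/
noncomputable def bC (m n : ℤ) : ℂ := th * (((m : ℝ) : ℂ) + ((n : ℝ) : ℂ) * om)

noncomputable def aC (m n k : ℤ) : ℂ :=
  ((k : ℝ) : ℂ) + ((2 * k + 3 * (m ^ 2 - m * n + n ^ 2) : ℝ) : ℂ) * om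

theorem aC_re (m n k : ℤ) : (aC m n k).re = -(3 / 2) * (m ^ 2 - m * n + n ^ 2) := by
  unfold aC
  rw [Complex.add_re, Complex.ofReal_re, Complex.re_ofReal_mul]
  simp only [om]
  ring

theorem aC_im (m n k : ℤ) : (aC m n k).im =
    Real.sqrt 3 * k + Real.sqrt 3 * (3 / 2 * (m ^ 2 - m * n + n ^ 2)) := by
  unfold aC
  rw [Complex.add_im, Complex.ofReal_im, Complex.im_ofReal_mul]
  simp only [om]
  ring

theorem bC_re (m n : ℤ) : (bC m n).re = -(3 / 2) * n := th_mul_re m n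

theorem bC_im (m n : ℤ) : (bC m n).im = Real.sqrt 3 * (m - n / 2) := th_mul_im m n

theorem bC_norm (m n : ℤ) : ‖bC m n‖ ^ 2 = 3 * (m ^ 2 - m * n + n ^ 2) := by
  rw [← Complex.normSq_eq_norm_sq, Complex.normSq_apply, bC_re, bC_im]
  have := s3sq
  linear_combination (((m : ℝ) - n / 2) ^ 2) * this

theorem InN_C (m n k : ℤ) : InN (aC m n k) (bC m n) := by
  refine ⟨⟨k, 2 * k + 3 * (m ^ 2 - m * n + n ^ 2), by unfold aC; push_cast; ring⟩,
    ⟨m + n * om, ⟨m, n, rfl⟩, by unfold bC; push_cast; ring⟩, ?_⟩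
  rw [aC_re, bC_norm]
  ring

/-- `InN` in integer coordinates -/
theorem InN_coord {a b : ℂ} (h : InN a b) : ∃ m n k : ℤ, b = bC m n ∧ a = aC m n k := by
  obtain ⟨⟨k, l, hkl⟩, ⟨c, ⟨m, n, hc⟩, hb⟩, hre⟩ := h
  have hb' : b = bC m n := by rw [hb, hc]; unfold bC; push_cast; ring
  refine ⟨m, n, k, hb', ?_⟩
  have e1 : a.re = k - l / 2 := by
    rw [hkl]
    simp [om]
    ring
  rw [e1, hb', bC_norm] at hre
  have e3 : (l : ℝ) = 2 * k + 3 * (m ^ 2 - m * n + n ^ 2) := by linarith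
  have e4 : l = 2 * k + 3 * (m ^ 2 - m * n + n ^ 2) := by exact_mod_cast e3
  rw [hkl, e4]
  unfold aC
  push_cast
  ring

theorem crd_act0 (a : ℂ) (m n : ℤ) (p : Pt) :
    crd (act (T a (bC m n)) p) 0 = crd p 0 + m := by
  have h := s3p.ne'
  rw [act_T]
  simp only [crd_zero, Complex.add_re, Complex.add_im]
  rw [bC_re, bC_im]
  field_simp
  ring

theorem crd_act1 (a : ℂ) (m n : ℤ) (p : Pt) :
    crd (act (T a (bC m n)) p) 1 = crd p 1 + n := by
  rw [act_T]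
  simp only [crd_one, Complex.add_re]
  rw [bC_re]
  ring

theorem crd_act2 (m n k : ℤ) (p : Pt) :
    crd (act (T (aC m n k) (bC m n)) p) 2 =
      (p.1.im - (conj (bC m n) * p.2).im) / Real.sqrt 3 + 3 / 2 * (m ^ 2 - m * n + n ^ 2) + k := by
  have h := s3p.ne'
  rw [act_T]
  simp only [crd_two, Complex.add_im, Complex.sub_im]
  rw [aC_im]
  field_simp
  ring

theorem exists_mem_cell (p : Pt) : ∃ a b : ℂ, InN a b ∧ act (T a b) p ∈ cellSet := by
  refine ⟨aC (-⌊crd p 0⌋) (-⌊crd p 1⌋)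
    (-⌊(p.1.im - (conj (bC (-⌊crd p 0⌋) (-⌊crd p 1⌋)) * p.2).im) / Real.sqrt 3 +
      3 / 2 * (((-⌊crd p 0⌋ : ℤ) : ℝ) ^ 2 - ((-⌊crd p 0⌋ : ℤ) : ℝ) * ((-⌊crd p 1⌋ : ℤ) : ℝ)
        + ((-⌊crd p 1⌋ : ℤ) : ℝ) ^ 2)⌋), bC (-⌊crd p 0⌋) (-⌊crd p 1⌋), InN_C _ _ _, ?_⟩
  intro i _
  fin_cases i
  · show crd _ 0 ∈ Set.Ico (0 : ℝ) 1
    rw [crd_act0]
    push_cast
    have h1 := Int.fract_nonneg (crd p 0)
    have h2 := Int.fract_lt_one (crd p 0)
    unfold Int.fract at h1 h2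
    exact ⟨by linarith, by linarith⟩
  · show crd _ 1 ∈ Set.Ico (0 : ℝ) 1
    rw [crd_act1]
    push_cast
    have h1 := Int.fract_nonneg (crd p 1)
    have h2 := Int.fract_lt_one (crd p 1)
    unfold Int.fract at h1 h2
    exact ⟨by linarith, by linarith⟩
  · show crd _ 2 ∈ Set.Ico (0 : ℝ) 1
    rw [crd_act2]
    generalize (p.1.im - (conj (bC (-⌊crd p 0⌋) (-⌊crd p 1⌋)) * p.2).im) / Real.sqrt 3 +
      3 / 2 * (((-⌊crd p 0⌋ : ℤ) : ℝ) ^ 2 - ((-⌊crd p 0⌋ : ℤ) : ℝ) * ((-⌊crd p 1⌋ : ℤ) : ℝ)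
        + ((-⌊crd p 1⌋ : ℤ) : ℝ) ^ 2) = y
    push_cast
    have h1 := Int.fract_nonneg y
    have h2 := Int.fract_lt_one y
    unfold Int.fract at h1 h2
    exact ⟨by linarith, by linarith⟩

theorem int_zero_of {x : ℝ} {m : ℤ} (h1 : x ∈ Set.Ico (0 : ℝ) 1) (h2 : x + m ∈ Set.Ico (0 : ℝ) 1) :
    m = 0 := by
  have a1 := h1.1
  have a2 := h1.2
  have a3 := h2.1
  have a4 := h2.2
  have f1 : (-1 : ℝ) < m := by linarith
  have f2 : (m : ℝ) < 1 := by linarith
  have f3 : (-1 : ℤ) < m := by exact_mod_cast f1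
  have f4 : m < (1 : ℤ) := by exact_mod_cast f2
  omega

theorem cell_unique {p : Pt} {a b : ℂ} (h : InN a b) (h1 : p ∈ cellSet)
    (h2 : act (T a b) p ∈ cellSet) : T a b = 1 := by
  obtain ⟨m, n, k, rfl, rfl⟩ := InN_coord h
  have e0 := h2 0 (Set.mem_univ 0)
  have e1 := h2 1 (Set.mem_univ 1)
  have e2 := h2 2 (Set.mem_univ 2)
  rw [crd_act0] at e0
  rw [crd_act1] at e1
  rw [crd_act2] at e2
  have hm : m = 0 := int_zero_of (h1 0 (Set.mem_univ 0)) e0
  have hn : n = 0 := int_zero_of (h1 1 (Set.mem_univ 1)) e1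
  subst hm
  subst hn
  have hb0 : bC 0 0 = 0 := by unfold bC; simp
  have e3 : crd p 2 + k ∈ Set.Ico (0 : ℝ) 1 := by
    have : crd p 2 + k = (p.1.im - (conj (bC 0 0) * p.2).im) / Real.sqrt 3
        + 3 / 2 * (((0 : ℤ) : ℝ) ^ 2 - ((0 : ℤ) : ℝ) * ((0 : ℤ) : ℝ) + ((0 : ℤ) : ℝ) ^ 2) + k := by
      rw [hb0, crd_two]; simp
    rw [this]
    exact e2
  have hk : k = 0 := int_zero_of (h1 2 (Set.mem_univ 2)) e3
  subst hk
  have ha0 : aC 0 0 0 = 0 := by unfold aC; simp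
  rw [hb0, ha0, T_zero]

theorem cell_bound {p : Pt} (h : p ∈ cellSet) : ‖p.2‖ ≤ 4 ∧ |p.1.im| ≤ 4 := by
  have e0 := h 0 (Set.mem_univ 0)
  have e1 := h 1 (Set.mem_univ 1)
  have e2 := h 2 (Set.mem_univ 2)
  rw [crd_zero] at e0
  rw [crd_one] at e1
  rw [crd_two] at e2
  have hs := s3p
  have hs2 := s3sq
  have hs3 : Real.sqrt 3 < 2 := by nlinarith
  have k1 : p.1.im = Real.sqrt 3 * (p.1.im / Real.sqrt 3) := by field_simp
  have k2 : p.2.im = Real.sqrt 3 * (p.2.im / Real.sqrt 3) := by field_simp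
  generalize p.1.im / Real.sqrt 3 = y at *
  generalize p.2.im / Real.sqrt 3 = x at *
  obtain ⟨a1, a2⟩ := e0
  obtain ⟨b1, b2⟩ := e1
  obtain ⟨c1, c2⟩ := e2
  have d1 : -(3 / 2) < p.2.re := by linarith
  have d2 : p.2.re ≤ 0 := by linarith
  constructor
  · have f1 : |p.2.re| ≤ 2 := abs_le.2 ⟨by linarith, by linarith⟩
    have f2 : |p.2.im| ≤ 2 := by
      rw [k2]
      exact abs_le.2 ⟨by nlinarith, by nlinarith⟩
    exact (Complex.norm_le_abs_re_add_abs_im _).trans (by linarith)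
  · rw [k1]
    exact abs_le.2 ⟨by nlinarith, by nlinarith⟩

/-! ### the change of variables -/

/-- the linear part of the parametrisation -/
noncomputable def linP : (ℝ × (Fin 3 → ℝ)) →ₗ[ℝ] Pt where
  toFun x := (⟨-x.1 / 2, Real.sqrt 3 * x.2 2⟩, th * (x.2 0 + x.2 1 * om))
  map_add' x y := by
    refine Prod.ext (Complex.ext ?_ ?_) ?_
    · simp; ring
    · simp; ring
    · simp; ring
  map_smul' c x := by
    refine Prod.ext (Complex.ext ?_ ?_) ?_
    · simp; ring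
    · simp; ring
    · simp; ring

theorem crd_linP (y : ℝ × (Fin 3 → ℝ)) : crd (linP y) = y.2 := by
  have h := s3p.ne'
  ext i
  fin_cases i
  · show (th * (y.2 0 + y.2 1 * om)).im / Real.sqrt 3 - (th * (y.2 0 + y.2 1 * om)).re / 3 = y.2 0
    rw [th_mul_re, th_mul_im]
    field_simp
    ring
  · show -(2 / 3) * (th * (y.2 0 + y.2 1 * om)).re = y.2 1
    rw [th_mul_re]
    ring
  · show (Real.sqrt 3 * y.2 2) / Real.sqrt 3 = y.2 2
    field_simp

/-- the linear part as an equivalence -/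
noncomputable def linE : (ℝ × (Fin 3 → ℝ)) ≃L[ℝ] Pt :=
  LinearEquiv.toContinuousLinearEquiv
    { linP with
      invFun := fun p => (-2 * p.1.re, crd p)
      left_inv := by
        intro y
        refine Prod.ext ?_ (crd_linP y)
        show -2 * (-y.1 / 2) = y.1
        ring
      right_inv := by
        intro p
        have h := s3p.ne'
        refine Prod.ext (Complex.ext ?_ ?_) (Complex.ext ?_ ?_)
        · show -(-2 * p.1.re) / 2 = p.1.re
          ring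
        · show Real.sqrt 3 * (p.1.im / Real.sqrt 3) = p.1.im
          field_simp
        · show (th * ((crd p 0 : ℝ) + (crd p 1 : ℝ) * om)).re = p.2.re
          rw [th_mul_re, crd_one]
          ring
        · show (th * ((crd p 0 : ℝ) + (crd p 1 : ℝ) * om)).im = p.2.im
          rw [th_mul_im, crd_zero, crd_one]
          field_simp
          ring }

theorem linE_apply (y : ℝ × (Fin 3 → ℝ)) :
    linE y = ((⟨-y.1 / 2, Real.sqrt 3 * y.2 2⟩ : ℂ), th * (y.2 0 + y.2 1 * om)) := rfl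

/-- the shear -/
noncomputable def shear (p : Pt) : Pt := (-((‖p.2‖ ^ 2 / 2 : ℝ) : ℂ) + p.1, p.2)

theorem mp_shear : MeasurePreserving shear (volume : Measure Pt) volume := by
  have h1 : MeasurePreserving (fun p : ℂ × ℂ => (id p.1, -((‖p.1‖ ^ 2 / 2 : ℝ) : ℂ) + p.2))
      ((volume : Measure ℂ).prod (volume : Measure ℂ))
      ((volume : Measure ℂ).prod (volume : Measure ℂ)) := by
    refine MeasurePreserving.skew_product (g := fun (a b : ℂ) => -((‖a‖ ^ 2 / 2 : ℝ) : ℂ) + b)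
      (MeasurePreserving.id (volume : Measure ℂ)) ?_ ?_
    · have : Continuous (Function.uncurry fun (a b : ℂ) => -((‖a‖ ^ 2 / 2 : ℝ) : ℂ) + b) := by
        unfold Function.uncurry
        fun_prop
      exact this.measurable
    · refine Filter.Eventually.of_forall fun a => ?_
      exact map_add_left_eq_self (volume : Measure ℂ) (-((‖a‖ ^ 2 / 2 : ℝ) : ℂ))
  have hs : MeasurePreserving (Prod.swap : ℂ × ℂ → ℂ × ℂ)
      ((volume : Measure ℂ).prod (volume : Measure ℂ))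
      ((volume : Measure ℂ).prod (volume : Measure ℂ)) := Measure.measurePreserving_swap
  exact hs.comp (h1.comp hs)

theorem shear_linE (y : ℝ × (Fin 3 → ℝ)) : shear (linE y) = cellpt y.2 y.1 := by
  rw [linE_apply]
  unfold shear cellpt
  refine Prod.ext (Complex.ext ?_ ?_) rfl
  · simp only [Complex.add_re, Complex.neg_re, Complex.ofReal_re]
    ring
  · simp only [Complex.add_im, Complex.neg_im, Complex.ofReal_im]
    ring

/-- Haar constant of the parametrisation -/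
theorem exists_const : ∃ c : ENNReal, c ≠ 0 ∧ c ≠ ⊤ ∧
    (volume : Measure Pt) = c • Measure.map linE volume := by
  have i1 : (volume : Measure Pt).IsAddHaarMeasure := by
    rw [Measure.volume_eq_prod]
    infer_instance
  have i2 : (volume : Measure (ℝ × (Fin 3 → ℝ))).IsAddHaarMeasure := by
    rw [Measure.volume_eq_prod]
    infer_instance
  have h1 : (Measure.map (⇑linE) (volume : Measure (ℝ × (Fin 3 → ℝ)))).IsAddHaarMeasure :=
    ContinuousLinearEquiv.isAddHaarMeasure_map linE volume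
  have h2 := Measure.isAddLeftInvariant_eq_smul (volume : Measure Pt)
    (Measure.map (⇑linE) (volume : Measure (ℝ × (Fin 3 → ℝ))))
  have h3 := Measure.addHaarScalarFactor_pos_of_isAddHaarMeasure (volume : Measure Pt)
    (Measure.map (⇑linE) (volume : Measure (ℝ × (Fin 3 → ℝ))))
  refine ⟨Measure.addHaarScalarFactor (volume : Measure Pt)
    (Measure.map (⇑linE) (volume : Measure (ℝ × (Fin 3 → ℝ)))), ?_, ENNReal.coe_ne_top, h2⟩
  exact_mod_cast h3.ne'

theorem lintegral_Pt {c : ENNReal} (hc : (volume : Measure Pt) = c • Measure.map linE volume)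
    (G : Pt → ENNReal) (hG : Measurable G) :
    ∫⁻ p, G p = c * ∫⁻ u : ℝ, ∫⁻ x : Fin 3 → ℝ, G (cellpt x u) := by
  have hsh : Measurable shear := mp_shear.measurable
  have hG2 : Measurable fun p => G (shear p) := hG.comp hsh
  have hL : Measurable linE := linE.continuous.measurable
  rw [← mp_shear.lintegral_comp hG]
  have e : ∫⁻ a, G (shear (linE a)) ∂((volume : Measure ℝ).prod (volume : Measure (Fin 3 → ℝ))) =
      ∫⁻ u : ℝ, ∫⁻ x : Fin 3 → ℝ, G (shear (linE (u, x))) :=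
    lintegral_prod _ (hG2.comp hL).aemeasurable
  rw [hc, lintegral_smul_measure, lintegral_map hG2 hL, smul_eq_mul, Measure.volume_eq_prod, e]
  congr 1
  refine lintegral_congr fun u => lintegral_congr fun x => ?_
  rw [shear_linE]

theorem continuous_cellpt : Continuous fun y : ℝ × (Fin 3 → ℝ) => cellpt y.2 y.1 := by
  have h1 : Continuous shear := by
    unfold shear
    fun_prop
  have h2 := h1.comp linE.continuous
  refine h2.congr fun y => ?_
  exact shear_linE y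

/-! ### the stabiliser of the cusp -/

/-- the stabiliser of the cusp vector `w0` -/
def Sg : Set (V3 ≃ₗ[ℂ] V3) := {g | g ∈ Gam ∧ g w0 = w0}

theorem T_w0 (a b : ℂ) : T a b w0 = w0 := by
  rw [T_apply]
  simp [w0]

theorem T_inv_mul {a b : ℂ} (h : InN a b) (g : V3 ≃ₗ[ℂ] V3) :
    T (conj a) (-b) * (T a b * g) = g := by
  rw [(InN.inv h).2, inv_mul_cancel_left]

/-- the equivalence relation of translates -/
def trel : Setoid Sg where
  r σ τ := ∃ a b : ℂ, InN a b ∧ (τ : V3 ≃ₗ[ℂ] V3) = T a b * σ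
  iseqv :=
    { refl := fun σ => ⟨0, 0, ⟨Eis.zero_mem, ⟨0, Eis.zero_mem, by simp⟩, by simp⟩,
        by rw [T_zero, one_mul]⟩
      symm := by
        rintro σ τ ⟨a, b, hab, h⟩
        refine ⟨conj a, -b, (InN.inv hab).1, ?_⟩
        rw [h, T_inv_mul hab]
      trans := by
        rintro σ τ ρ ⟨a, b, hab, h⟩ ⟨a', b', hab', h'⟩
        refine ⟨a' + a - conj b' * b, b' + b, InN.mul hab' hab, ?_⟩
        rw [h', h, ← mul_assoc, T_mul] }

/-- the set of classes -/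
abbrev Cls := Quotient trel

theorem height_stab {g : V3 ≃ₗ[ℂ] V3} (hg : g ∈ Sg) {p : Pt} (hp : p ∈ SD) :
    hgt (act g p) = hgt p := by
  have h1 := uval_act (mem_UG hg.1) w0 hp
  have h2 : g⁻¹ w0 = w0 := by
    have : g⁻¹ (g w0) = w0 := g.symm_apply_apply w0
    rwa [hg.2] at this
  rw [h2, uval_w0, uval_w0, one_div, one_div] at h1
  exact inv_injective h1

/-- base point -/
noncomputable def p0 : Pt := (-(1 / 2 : ℝ), 0)

theorem hgt_p0 : hgt p0 = 1 := by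
  unfold hgt p0
  simp

theorem p0_mem : p0 ∈ SD := by
  show 0 < hgt p0
  rw [hgt_p0]
  exact one_pos

theorem finite_Cls (hA : Inp) : Finite Cls := by
  obtain ⟨U, hU, -, hfin⟩ := hA.lf p0 p0_mem 4 1 one_pos
  have hfin2 : Finite {γ : Gam | ∃ q ∈ U, act γ q ∈ Sieg 4 1} := hfin
  -- for every class choose a representative in the finite set
  have hex : ∀ c : Cls, ∃ σ : Sg, (Quotient.mk trel σ) = c ∧
      (act (σ : V3 ≃ₗ[ℂ] V3) p0) ∈ cellSet := by
    intro c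
    obtain ⟨σ, rfl⟩ := Quotient.exists_rep c
    obtain ⟨a, b, hab, hxc⟩ := exists_mem_cell (act (σ : V3 ≃ₗ[ℂ] V3) p0)
    have hT := InN.mem hab
    have hmem : T a b * (σ : V3 ≃ₗ[ℂ] V3) ∈ Sg := by
      refine ⟨Gam.mul_mem hT σ.2.1, ?_⟩
      rw [LinearEquiv.mul_apply, σ.2.2, T_w0]
    refine ⟨⟨_, hmem⟩, Quotient.sound (s := trel) ?_, ?_⟩
    · exact trel.symm ⟨a, b, hab, rfl⟩
    · show act (T a b * (σ : V3 ≃ₗ[ℂ] V3)) p0 ∈ cellSet
      rw [act_mul _ (mem_UG σ.2.1) p0_mem]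
      exact hxc
  choose rep hrep1 hrep2 using hex
  have hmem : ∀ c : Cls, (⟨(rep c : V3 ≃ₗ[ℂ] V3), (rep c).2.1⟩ : Gam) ∈
      {γ : Gam | ∃ q ∈ U, act γ q ∈ Sieg 4 1} := by
    intro c
    have hb := cell_bound (hrep2 c)
    refine ⟨_, mem_of_mem_nhds hU, hb.1, hb.2, ?_⟩
    show 1 ≤ hgt (act (rep c : V3 ≃ₗ[ℂ] V3) p0)
    rw [height_stab (rep c).2 p0_mem, hgt_p0]
  have hinj : Function.Injective (fun c : Cls =>
      (⟨_, hmem c⟩ : {γ : Gam | ∃ q ∈ U, act γ q ∈ Sieg 4 1})) := by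
    intro c d hcd
    have h1 := congrArg Subtype.val (congrArg Subtype.val hcd)
    have h2 : rep c = rep d := Subtype.ext h1
    rw [← hrep1 c, ← hrep1 d, h2]
  exact Finite.of_injective _ hinj

theorem nonempty_Cls : Nonempty Cls :=
  ⟨Quotient.mk trel ⟨1, Gam.one_mem, rfl⟩⟩

/-- the strip function -/
noncomputable def strip (ψ : ℝ → ENNReal) : Pt → ENNReal :=
  Set.indicator (cellSet ∩ SD) (fun p => ψ (hgt p))

theorem measurable_strip {ψ : ℝ → ENNReal} (hψ : Measurable ψ) : Measurable (strip ψ) :=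
  (hψ.comp continuous_hgt'.measurable).indicator (measurableSet_cellSet.inter measurableSet_SD)

theorem sum_stab (hA : Inp) (ψ : ℝ → ENNReal) {p : Pt} (hp : p ∈ SD) :
    ∑' σ : Sg, strip ψ (act (σ : V3 ≃ₗ[ℂ] V3) p) = (Nat.card Cls : ENNReal) * ψ (hgt p) := by
  rw [← (Equiv.sigmaFiberEquiv (Quotient.mk trel)).tsum_eq, ENNReal.tsum_sigma']
  have hone : ∀ c : Cls, ∑' σ : {σ // Quotient.mk trel σ = c},
      strip ψ (act (((Equiv.sigmaFiberEquiv (Quotient.mk trel)) ⟨c, σ⟩ : Sg) :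
        V3 ≃ₗ[ℂ] V3) p) = ψ (hgt p) := by
    intro c
    obtain ⟨σ, rfl⟩ := Quotient.exists_rep c
    obtain ⟨a, b, hab, hxc⟩ := exists_mem_cell (act (σ : V3 ≃ₗ[ℂ] V3) p)
    have hT := InN.mem hab
    have hmem : T a b * (σ : V3 ≃ₗ[ℂ] V3) ∈ Sg := by
      refine ⟨Gam.mul_mem hT σ.2.1, ?_⟩
      rw [LinearEquiv.mul_apply, σ.2.2, T_w0]
    have hcls : Quotient.mk trel (⟨_, hmem⟩ : Sg) = Quotient.mk trel σ :=
      Quotient.sound (s := trel) (trel.symm ⟨a, b, hab, rfl⟩)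
    have hpos := act_mem (mem_UG σ.2.1) hp
    rw [tsum_eq_single (⟨⟨_, hmem⟩, hcls⟩ :
      {τ // Quotient.mk trel τ = Quotient.mk trel σ})]
    · show strip ψ (act (T a b * (σ : V3 ≃ₗ[ℂ] V3)) p) = _
      unfold strip
      rw [Set.indicator_of_mem, height_stab hmem hp]
      rw [act_mul _ (mem_UG σ.2.1) hp]
      exact ⟨hxc, act_mem (mem_UG hT) hpos⟩
    · rintro ⟨τ, hτ⟩ hne
      show strip ψ (act (τ : V3 ≃ₗ[ℂ] V3) p) = 0
      obtain ⟨a', b', hab', hvτ⟩ := Quotient.exact (s := trel) hτ.symm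
      rw [hvτ, act_mul _ (mem_UG σ.2.1) hp]
      unfold strip
      rw [Set.indicator_of_notMem]
      intro hcell
      apply hne
      apply Subtype.ext
      apply Subtype.ext
      show (τ : V3 ≃ₗ[ℂ] V3) = T a b * (σ : V3 ≃ₗ[ℂ] V3)
      have hc : act (T a' b') (act (σ : V3 ≃ₗ[ℂ] V3) p) ∈ cellSet := hcell.1
      -- the quotient of the two translations fixes the cell
      have hq : InN (a' + conj a - conj b' * (-b)) (b' + -b) := InN.mul hab' (InN.inv hab).1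
      have hTT : T (a' + conj a - conj b' * (-b)) (b' + -b) = T a' b' * (T a b)⁻¹ := by
        rw [← T_mul, (InN.inv hab).2]
      have h1 : act (T (a' + conj a - conj b' * (-b)) (b' + -b))
          (act (T a b) (act (σ : V3 ≃ₗ[ℂ] V3) p)) ∈ cellSet := by
        rw [hTT, ← act_mul _ (mem_UG hT) hpos, mul_assoc, inv_mul_cancel, mul_one]
        exact hc
      have h2 := cell_unique hq hxc h1
      rw [hTT] at h2
      rw [hvτ, mul_inv_eq_one.1 h2]
  rw [tsum_congr hone]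
  have : Finite Cls := finite_Cls hA
  have hfin : Fintype Cls := Fintype.ofFinite _
  rw [tsum_fintype, Finset.sum_const, nsmul_eq_mul, Finset.card_univ, Nat.card_eq_fintype_card]

/-- the cusp vector of a group element -/
noncomputable def cusp (γ : Gam) : Orb :=
  ⟨((γ⁻¹ : Gam) : V3 ≃ₗ[ℂ] V3) w0, _, (γ⁻¹ : Gam).2, rfl⟩

theorem inv_mul_apply' (g : V3 ≃ₗ[ℂ] V3) (x : V3) : g (g⁻¹ x) = x := g.apply_symm_apply x

theorem cusp_eq {γ γ₁ : Gam} (h : cusp γ = cusp γ₁) :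
    (γ : V3 ≃ₗ[ℂ] V3) * (γ₁ : V3 ≃ₗ[ℂ] V3)⁻¹ ∈ Sg := by
  refine ⟨Gam.mul_mem γ.2 (Gam.inv_mem γ₁.2), ?_⟩
  have h1 : (γ : V3 ≃ₗ[ℂ] V3)⁻¹ w0 = (γ₁ : V3 ≃ₗ[ℂ] V3)⁻¹ w0 := congrArg Subtype.val h
  rw [LinearEquiv.mul_apply, ← h1, inv_mul_apply']

/-- the fibre of `cusp` -/
noncomputable def fibEquiv (γ₁ : Gam) : {γ : Gam // cusp γ = cusp γ₁} ≃ Sg where
  toFun γ := ⟨_, cusp_eq γ.2⟩
  invFun σ := ⟨⟨(σ : V3 ≃ₗ[ℂ] V3) * γ₁, Gam.mul_mem σ.2.1 γ₁.2⟩, by
    apply Subtype.ext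
    show ((σ : V3 ≃ₗ[ℂ] V3) * (γ₁ : V3 ≃ₗ[ℂ] V3))⁻¹ w0
      = (γ₁ : V3 ≃ₗ[ℂ] V3)⁻¹ w0
    rw [mul_inv_rev, LinearEquiv.mul_apply]
    have : (σ : V3 ≃ₗ[ℂ] V3)⁻¹ w0 = w0 := by
      have h : (σ : V3 ≃ₗ[ℂ] V3)⁻¹ ((σ : V3 ≃ₗ[ℂ] V3) w0) = w0 :=
        (σ : V3 ≃ₗ[ℂ] V3).symm_apply_apply w0
      rwa [σ.2.2] at h
    rw [this]⟩
  left_inv γ := Subtype.ext (Subtype.ext (inv_mul_cancel_right _ _))
  right_inv σ := Subtype.ext (mul_inv_cancel_right _ _)

theorem sum_fibre (hA : Inp) (ψ : ℝ → ENNReal) {p : Pt} (hp : p ∈ SD) (γ₁ : Gam) :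
    ∑' γ : {γ : Gam // cusp γ = cusp γ₁}, strip ψ (act (γ.1 : V3 ≃ₗ[ℂ] V3) p)
      = (Nat.card Cls : ENNReal) * ψ (hgt (act (γ₁ : V3 ≃ₗ[ℂ] V3) p)) := by
  rw [← sum_stab hA ψ (act_mem (mem_UG γ₁.2) hp), ← (fibEquiv γ₁).symm.tsum_eq]
  refine tsum_congr fun σ => ?_
  show strip ψ (act ((σ : V3 ≃ₗ[ℂ] V3) * (γ₁ : V3 ≃ₗ[ℂ] V3)) p) = _
  rw [act_mul _ (mem_UG γ₁.2) hp]

theorem one_div_uval (γ : Gam) {p : Pt} (hp : p ∈ SD) :
    1 / uval (cusp γ : V3) p = hgt (act (γ : V3 ≃ₗ[ℂ] V3) p) := by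
  have h := uval_act (mem_UG γ.2) w0 hp
  rw [uval_w0] at h
  show 1 / uval ((γ : V3 ≃ₗ[ℂ] V3)⁻¹ w0) p = _
  rw [← h, one_div_one_div]

theorem sum_strip (hA : Inp) (ψ : ℝ → ENNReal) {p : Pt} (hp : p ∈ SD) :
    ∑' γ : Gam, strip ψ (act γ p)
      = (Nat.card Cls : ENNReal) * ∑' w : Orb, ψ (1 / uval w p) := by
  rw [← (Equiv.sigmaFiberEquiv cusp).tsum_eq, ENNReal.tsum_sigma',
    ← ENNReal.tsum_mul_left]
  refine tsum_congr fun w => ?_
  obtain ⟨w, γ₀, hγ₀, hw⟩ := w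
  have hrow : (⟨w, γ₀, hγ₀, hw⟩ : Orb) = cusp (⟨γ₀, hγ₀⟩⁻¹ : Gam) := by
    apply Subtype.ext
    show w = ((γ₀⁻¹)⁻¹ : V3 ≃ₗ[ℂ] V3) w0
    rw [inv_inv]
    exact hw
  rw [hrow]
  have h := sum_fibre hA ψ hp (⟨γ₀, hγ₀⟩⁻¹ : Gam)
  rw [one_div_uval _ hp]
  exact h

theorem lintegral_strip {c : ENNReal} (hc : (volume : Measure Pt) = c • Measure.map linE volume)
    {ψ : ℝ → ENNReal} (hψ : Measurable ψ) {F : Pt → ENNReal} (hF : Measurable F) :
    ∫⁻ p, strip ψ p * F p ∂hyp = c *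
      ∫⁻ u in Set.Ioi (0 : ℝ), ψ u * cellInt F u * ENNReal.ofReal ((u ^ 3)⁻¹) := by
  have hd : Measurable fun p : Pt => ENNReal.ofReal ((hgt p ^ 3)⁻¹) :=
    ENNReal.measurable_ofReal.comp ((continuous_hgt'.measurable.pow_const 3).inv)
  have hη := measurable_strip hψ
  have hm : Measurable fun p : Pt => strip ψ p * F p := hη.mul hF
  have hm2 : Measurable fun p : Pt =>
      ENNReal.ofReal ((hgt p ^ 3)⁻¹) * (strip ψ p * F p) := hd.mul hm
  have e0 : ∫⁻ p, strip ψ p * F p ∂hyp =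
      ∫⁻ p, SD.indicator (fun p => ENNReal.ofReal ((hgt p ^ 3)⁻¹) * (strip ψ p * F p)) p := by
    unfold hyp
    rw [lintegral_withDensity_eq_lintegral_mul _ hd hm, lintegral_indicator measurableSet_SD]
    rfl
  rw [e0, lintegral_Pt hc _ (hm2.indicator measurableSet_SD)]
  congr 1
  rw [← lintegral_indicator measurableSet_Ioi]
  refine lintegral_congr fun u => ?_
  by_cases hu : 0 < u
  · rw [Set.indicator_of_mem (show u ∈ Set.Ioi (0 : ℝ) from hu)]
    have hcu : Measurable fun x : Fin 3 → ℝ => F (cellpt x u) :=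
      hF.comp (continuous_cellpt.comp (by fun_prop : Continuous fun x : Fin 3 → ℝ => (u, x))).measurable
    have e1 : ∀ x : Fin 3 → ℝ, SD.indicator (fun p => ENNReal.ofReal ((hgt p ^ 3)⁻¹) *
        (strip ψ p * F p)) (cellpt x u) =
        cube.indicator (fun x => ENNReal.ofReal ((u ^ 3)⁻¹) * (ψ u * F (cellpt x u))) x := by
      intro x
      have hSD : cellpt x u ∈ SD := by
        show 0 < hgt (cellpt x u)
        rw [hgt_cellpt]
        exact hu
      rw [Set.indicator_of_mem hSD, hgt_cellpt]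
      have hiff : cellpt x u ∈ cellSet ↔ x ∈ cube := by
        show crd (cellpt x u) ∈ cube ↔ x ∈ cube
        rw [crd_cellpt]
      by_cases hx : x ∈ cube
      · rw [Set.indicator_of_mem hx]
        unfold strip
        rw [Set.indicator_of_mem (show cellpt x u ∈ cellSet ∩ SD from ⟨hiff.2 hx, hSD⟩),
          hgt_cellpt]
      · rw [Set.indicator_of_notMem hx]
        unfold strip
        rw [Set.indicator_of_notMem (show cellpt x u ∉ cellSet ∩ SD from
          fun h => hx (hiff.1 h.1))]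
        simp
    rw [lintegral_congr e1, lintegral_indicator measurableSet_cube,
      lintegral_const_mul _ (hcu.const_mul _), lintegral_const_mul _ hcu]
    have hae : cube =ᵐ[volume] Set.Icc (0 : Fin 3 → ℝ) 1 := by
      have := Measure.univ_pi_Ico_ae_eq_Icc (μ := fun _ : Fin 3 => (volume : Measure ℝ))
        (f := (0 : Fin 3 → ℝ)) (g := (1 : Fin 3 → ℝ))
      exact this
    rw [Measure.restrict_congr_set hae]
    unfold cellInt
    ring
  · rw [Set.indicator_of_notMem (show u ∉ Set.Ioi (0 : ℝ) from hu)]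
    have e1 : ∀ x : Fin 3 → ℝ, SD.indicator (fun p => ENNReal.ofReal ((hgt p ^ 3)⁻¹) *
        (strip ψ p * F p)) (cellpt x u) = 0 := by
      intro x
      rw [Set.indicator_of_notMem]
      intro h
      have h' : 0 < hgt (cellpt x u) := h
      rw [hgt_cellpt] at h'
      exact hu h'
    rw [lintegral_congr e1]
    simp

theorem strip_unfold_aux (hA : Inp) {κ : Pt → ℝ} {C a : ℝ} (hK : Kap κ C a) :
    ∃ K : ENNReal, K ≠ 0 ∧ K ≠ ⊤ ∧ ∀ (ψ : ℝ → ENNReal) (F : Pt → ENNReal), Measurable ψ →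
      Measurable F → (∀ γ ∈ Gam, ∀ p ∈ SD, F (act γ p) = F p) →
      ∫⁻ u in Set.Ioi (0 : ℝ), ψ u * cellInt F u * ENNReal.ofReal ((u ^ 3)⁻¹)
        = K * ∫⁻ p, ENNReal.ofReal (κ p) * (∑' w : Orb, ψ (1 / uval w p)) * F p ∂hyp := by
  obtain ⟨c, hc0, hct, hc⟩ := exists_const
  have hfin : Finite Cls := finite_Cls hA
  have hN0 : (Nat.card Cls : ENNReal) ≠ 0 := by
    have : Nonempty Cls := nonempty_Cls
    exact_mod_cast Nat.card_pos.ne'
  have hNt : (Nat.card Cls : ENNReal) ≠ ⊤ := ENNReal.natCast_ne_top _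
  refine ⟨c⁻¹ * Nat.card Cls, mul_ne_zero (ENNReal.inv_ne_zero.2 hct) hN0,
    ENNReal.mul_ne_top (ENNReal.inv_ne_top.2 hc0) hNt, ?_⟩
  intro ψ F hψ hF hinv
  have h1 := unfold_aux hA hK (strip ψ) F (measurable_strip hψ) hF hinv
  have h2 : ∫⁻ p, ENNReal.ofReal (κ p) * (∑' γ : Gam, strip ψ (act γ p)) * F p ∂hyp =
      Nat.card Cls *
        ∫⁻ p, ENNReal.ofReal (κ p) * (∑' w : Orb, ψ (1 / uval w p)) * F p ∂hyp := by
    rw [← lintegral_const_mul' _ _ hNt]
    refine lintegral_congr_ae ?_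
    filter_upwards [ae_SD] with p hp
    rw [sum_strip hA ψ hp]
    ring
  rw [lintegral_strip hc hψ hF, h2] at h1
  rw [mul_assoc, ← h1, ← mul_assoc, ENNReal.inv_mul_cancel hc0 hct, one_mul]

end Pool.Agent.Helper34.Pic
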