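import Pool.Agent.Helper10.Pic.Lib

set_option autoImplicit false

/-!
# Module UP : at most 36 cusp vectors of height greater than `1`
-/

namespace Pool.Agent.Helper34.Pic

open Pool.Agent.Helper10.Pic
open scoped ComplexConjugate Classical

/-! ### Eisenstein integers -/

theorem sq3 : Real.sqrt 3 * Real.sqrt 3 = 3 := Real.mul_self_sqrt (by norm_num)

theorem s3pos : 0 < Real.sqrt 3 := Real.sqrt_pos.2 (by norm_num)

theorem s3lo : 17 / 10 < Real.sqrt 3 := by
  have := sq3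
  have := s3pos
  nlinarith

theorem s3hi : Real.sqrt 3 < 18 / 10 := by
  have := sq3
  have := s3pos
  nlinarith

theorem nsq (x : ℂ) : ‖x‖ ^ 2 = x.re ^ 2 + x.im ^ 2 := by
  rw [← Complex.normSq_eq_norm_sq, Complex.normSq_apply]; ring

theorem eis_re (a b : ℤ) : ((a : ℂ) + b * om).re = a - b / 2 := by
  simp [om]; ring

theorem eis_im (a b : ℤ) : ((a : ℂ) + b * om).im = b * (Real.sqrt 3 / 2) := by
  simp [om]

theorem eis_nsq (a b : ℤ) : ‖(a : ℂ) + b * om‖ ^ 2 = ((a ^ 2 - a * b + b ^ 2 : ℤ) : ℝ) := by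
  rw [nsq, eis_re, eis_im]
  push_cast
  have := sq3
  linear_combination (b : ℝ) ^ 2 / 4 * this

theorem om_sq : om * om = -1 - om := by
  apply Complex.ext
  · simp only [om, Complex.mul_re, Complex.sub_re, Complex.neg_re, Complex.one_re]
    linear_combination (-1 / 4 : ℝ) * sq3
  · simp only [om, Complex.mul_im, Complex.sub_im, Complex.neg_im, Complex.one_im]
    ring

theorem conj_om : conj om = -1 - om := by
  apply Complex.ext
  · simp [om]; norm_num
  · simp [om]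

theorem th_eq : th = 1 + 2 * om := by
  apply Complex.ext
  · simp [om, th]; norm_num
  · simp [om, th]; ring

theorem eis_mul {x y : ℂ} (hx : x ∈ Eis) (hy : y ∈ Eis) : x * y ∈ Eis := by
  obtain ⟨a, b, rfl⟩ := hx
  obtain ⟨c, d, rfl⟩ := hy
  refine ⟨a * c - b * d, a * d + b * c - b * d, ?_⟩
  push_cast
  linear_combination (b : ℂ) * d * om_sq

theorem eis_conj {x : ℂ} (hx : x ∈ Eis) : conj x ∈ Eis := by
  obtain ⟨a, b, rfl⟩ := hx
  refine ⟨a - b, -b, ?_⟩
  rw [map_add, map_mul, map_intCast, map_intCast, conj_om]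
  push_cast
  ring

/-- squared norms of Eisenstein integers -/
theorem eis_norm_int {x : ℂ} (hx : x ∈ Eis) : ∃ n : ℤ, ‖x‖ ^ 2 = n ∧ n ≠ 2 ∧ 0 ≤ n := by
  obtain ⟨a, b, rfl⟩ := hx
  refine ⟨_, eis_nsq a b, ?_, ?_⟩
  · intro h
    have h1 : b ≤ 1 := by nlinarith [sq_nonneg (2 * a - b)]
    have h2 : -1 ≤ b := by nlinarith [sq_nonneg (2 * a - b)]
    have h3 : a ≤ 1 := by nlinarith [sq_nonneg (2 * b - a)]
    have h4 : -1 ≤ a := by nlinarith [sq_nonneg (2 * b - a)]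
    interval_cases a <;> interval_cases b <;> omega
  · nlinarith [sq_nonneg (2 * a - b)]

/-- the six units -/
noncomputable def U6 : Finset ℂ := {1, -1, om, -om, om * om, -(om * om)}

theorem U6_card : U6.card ≤ 6 := Finset.card_le_six

theorem unit_mem {x : ℂ} (hx : x ∈ Eis) (h : ‖x‖ ^ 2 = 1) : x ∈ U6 := by
  obtain ⟨a, b, rfl⟩ := hx
  rw [eis_nsq] at h
  have h' : a ^ 2 - a * b + b ^ 2 = 1 := by exact_mod_cast h
  have h1 : b ≤ 1 := by nlinarith [sq_nonneg (2 * a - b)]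
  have h2 : -1 ≤ b := by nlinarith [sq_nonneg (2 * a - b)]
  have h3 : a ≤ 1 := by nlinarith [sq_nonneg (2 * b - a)]
  have h4 : -1 ≤ a := by nlinarith [sq_nonneg (2 * b - a)]
  simp only [U6, Finset.mem_insert, Finset.mem_singleton, om_sq]
  interval_cases a <;> interval_cases b <;> first | omega | skip
  all_goals push_cast
  · right; right; right; right; left; ring
  · right; left; ring
  · right; right; right; left; ring
  · right; right; left; ring
  · left; ring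
  · right; right; right; right; right; ring

theorem th_dvd {x : ℂ} (hx : x ∈ Eis) {n : ℤ} (h : ‖x‖ ^ 2 = 3 * n) : ∃ y ∈ Eis, x = th * y := by
  obtain ⟨a, b, rfl⟩ := hx
  rw [eis_nsq] at h
  have h' : a ^ 2 - a * b + b ^ 2 = 3 * n := by exact_mod_cast h
  have h3 : (3 : ℤ) ∣ (a + b) ^ 2 := ⟨n + a * b, by linear_combination h'⟩
  have h4 : (3 : ℤ) ∣ a + b := Int.Prime.dvd_pow' Nat.prime_three h3
  obtain ⟨k, hk⟩ := h4
  refine ⟨(b - k : ℤ) + (b - 2 * k : ℤ) * om, ⟨_, _, rfl⟩, ?_⟩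
  have ha : (a : ℂ) = 3 * k - b := by
    have : a = 3 * k - b := by omega
    rw [this]; push_cast; ring
  rw [ha, th_eq]
  push_cast
  linear_combination (-2 * (b : ℂ) + 4 * k) * om_sq

/-! ### normalised vectors -/

/-- the properties of the cusp vectors used below -/
structure NV (q : Pt) (w : V3) : Prop where
  lat : w ∈ lat3
  iso : herm w w = 0
  prim : ∀ x ∈ lat3, w ≠ th • x
  small : ‖herm (vec q) w‖ ^ 2 < hgt q

theorem herm_smul_right (x y : V3) (e : ℂ) : herm x (e • y) = conj e * herm x y := by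
  unfold herm
  simp only [Prod.smul_fst, Prod.smul_snd, smul_eq_mul, map_mul]
  ring

theorem herm_smul_left (x y : V3) (e : ℂ) : herm (e • x) y = e * herm x y := by
  unfold herm
  simp only [Prod.smul_fst, Prod.smul_snd, smul_eq_mul]
  ring

theorem lat_smul {w : V3} (hw : w ∈ lat3) {e : ℂ} (he : e ∈ Eis) : e • w ∈ lat3 :=
  ⟨eis_mul he hw.1, eis_mul he hw.2.1, eis_mul he hw.2.2⟩

theorem conj_mul_of_norm {e : ℂ} (he : ‖e‖ ^ 2 = 1) : conj e * e = 1 := by
  rw [mul_comm, Complex.mul_conj, Complex.normSq_eq_norm_sq, he, Complex.ofReal_one]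

theorem NV.smul {q : Pt} {w : V3} (h : NV q w) {e : ℂ} (he : e ∈ Eis) (hn : ‖e‖ ^ 2 = 1) :
    NV q (e • w) := by
  refine ⟨lat_smul h.lat he, ?_, ?_, ?_⟩
  · rw [herm_smul_left, herm_smul_right, h.iso, mul_zero, mul_zero]
  · intro x hx hc
    apply h.prim (conj e • x) (lat_smul hx (eis_conj he))
    rw [smul_smul, mul_comm, ← smul_smul, ← hc, smul_smul, conj_mul_of_norm hn, one_smul]
  · rw [herm_smul_right, norm_mul, Complex.norm_conj, mul_pow, hn, one_mul]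
    exact h.small

theorem w0_lat : w0 ∈ lat3 := by
  refine ⟨⟨1, 0, ?_⟩, Eis.zero_mem, Eis.zero_mem⟩
  simp [w0]

theorem orb_lat {w : V3} (hw : w ∈ Orb) : w ∈ lat3 := by
  obtain ⟨γ, hγ, rfl⟩ := hw
  exact (hγ.2 w0).2 w0_lat

theorem orb_iso {w : V3} (hw : w ∈ Orb) : herm w w = 0 := by
  obtain ⟨γ, hγ, rfl⟩ := hw
  rw [hγ.1]
  simp [herm, w0]

theorem not_th_dvd_one {x : ℂ} (hx : x ∈ Eis) : (1 : ℂ) ≠ th * x := by
  intro h
  obtain ⟨n, hn, -, -⟩ := eis_norm_int hx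
  have h1 : ‖(1 : ℂ)‖ ^ 2 = ‖th * x‖ ^ 2 := by rw [← h]
  rw [norm_mul, mul_pow, hn, norm_one] at h1
  have h2 : ‖th‖ ^ 2 = 3 := by
    rw [nsq]
    simp only [th]
    have := sq3
    linear_combination this
  rw [h2] at h1
  have h3 : (1 : ℤ) = 3 * n := by
    have : (1 : ℝ) = 3 * n := by linarith
    exact_mod_cast this
  omega

theorem orb_prim {w : V3} (hw : w ∈ Orb) : ∀ x ∈ lat3, w ≠ th • x := by
  obtain ⟨γ, hγ, rfl⟩ := hw
  intro x hx h
  have h1 : w0 = th • γ⁻¹ x := by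
    rw [← map_smul, ← h]
    exact (γ.symm_apply_apply w0).symm
  have h2 : γ⁻¹ x ∈ lat3 := ((Gam.inv_mem hγ).2 x).2 hx
  have h3 : (1 : ℂ) = th * (γ⁻¹ x).1 := by
    have := congrArg (fun z : V3 => z.1) h1
    simpa [w0] using this
  exact not_th_dvd_one h2.1 h3

theorem orb_first {w : V3} (hw : w ∈ Orb) (h1 : w.2.1 = 0) (h2 : w.2.2 = 0) :
    ‖w.1‖ ^ 2 = 1 := by
  have hlat := orb_lat hw
  have hwe : w = w.1 • w0 := by
    refine Prod.ext ?_ (Prod.ext ?_ ?_)
    · simp [w0]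
    · rw [h1]; simp [w0]
    · rw [h2]; simp [w0]
  obtain ⟨γ, hγ, hγw⟩ := hw
  have h3 : w0 = w.1 • γ⁻¹ w0 := by
    rw [← map_smul, ← hwe, hγw]
    exact (γ.symm_apply_apply w0).symm
  have h4 : γ⁻¹ w0 ∈ lat3 := ((Gam.inv_mem hγ).2 w0).2 w0_lat
  have h5 : (1 : ℂ) = w.1 * (γ⁻¹ w0).1 := by
    have := congrArg (fun z : V3 => z.1) h3
    simpa [w0] using this
  obtain ⟨m, hm, -, hm0⟩ := eis_norm_int hlat.1
  obtain ⟨n, hn, -, hn0⟩ := eis_norm_int h4.1
  have h6 : (1 : ℝ) = m * n := by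
    rw [← hm, ← hn, ← mul_pow, ← norm_mul, ← h5]; simp
  have h7 : (1 : ℤ) = m * n := by exact_mod_cast h6
  have h8 : m = 1 := by
    have := Int.eq_one_or_neg_one_of_mul_eq_one h7.symm
    omega
  rw [hm, h8]; norm_num

theorem orb_NV {q : Pt} (hq : q ∈ SD) {w : V3} (hw : w ∈ Orb) (hu : uval w q < 1) : NV q w := by
  refine ⟨orb_lat hw, orb_iso hw, orb_prim hw, ?_⟩
  have hq' : 0 < hgt q := hq
  unfold uval at hu
  rwa [div_lt_one hq'] at hu

/-- the formula for the height -/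
theorem herm_formula (q : Pt) (α β : ℂ) (h : 2 * α.re + ‖β‖ ^ 2 = 0) :
    4 * ‖herm (vec q) (α, β, 1)‖ ^ 2 = (hgt q + ‖q.2 - β‖ ^ 2) ^ 2
      + (2 * (q.1.im + (q.2 * conj β).im - α.im)) ^ 2 := by
  have e1 : herm (vec q) (α, β, 1) = q.1 + q.2 * conj β + conj α := by
    unfold herm vec
    simp
  rw [e1, nsq, nsq (q.2 - β)]
  rw [nsq β] at h
  unfold hgt
  rw [nsq q.2]
  simp only [Complex.add_re, Complex.add_im, Complex.mul_re, Complex.mul_im, Complex.conj_re,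
    Complex.conj_im, Complex.sub_re, Complex.sub_im]
  have h' : α.re = -(β.re ^ 2 + β.im ^ 2) / 2 := by linarith
  rw [h']
  ring

theorem herm_self_one (α β : ℂ) :
    herm (α, β, 1) (α, β, 1) = ((2 * α.re + ‖β‖ ^ 2 : ℝ) : ℂ) := by
  unfold herm
  rw [nsq]
  apply Complex.ext
  · simp only [Complex.add_re, Complex.mul_re, Complex.conj_re, Complex.conj_im,
      Complex.one_re, Complex.one_im, Complex.ofReal_re]
    ring
  · simp only [Complex.add_im, Complex.mul_im, Complex.conj_re, Complex.conj_im,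
      Complex.one_re, Complex.one_im, Complex.ofReal_im]
    ring

theorem iso_one {α β : ℂ} (h : herm (α, β, 1) (α, β, 1) = 0) : 2 * α.re + ‖β‖ ^ 2 = 0 := by
  rw [herm_self_one] at h
  exact_mod_cast h

/-- the reduction conditions -/
structure RP (q : Pt) : Prop where
  near : ∀ b ∈ Eis, ‖q.2‖ ≤ ‖q.2 - b‖
  z3 : ‖q.2‖ ^ 2 ≤ 1 / 3
  im : |q.1.im| ≤ Real.sqrt 3 / 2
  one : 1 ≤ hgt q

theorem c_bound {q : Pt} (hq : RP q) {w : V3} (h : NV q w) (hc : w.2.2 ≠ 0) :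
    ‖w.2.2‖ ^ 2 < 4 := by
  have hw : w = w.2.2 • ((w.1 / w.2.2, w.2.1 / w.2.2, 1) : V3) := by
    refine Prod.ext ?_ (Prod.ext ?_ ?_)
    · simp only [Prod.smul_fst, smul_eq_mul]; field_simp
    · simp only [Prod.smul_snd, Prod.smul_fst, smul_eq_mul]; field_simp
    · simp only [Prod.smul_snd, smul_eq_mul, mul_one]
  have hiso := h.iso
  rw [hw, herm_smul_left, herm_smul_right] at hiso
  have hiso' : herm ((w.1 / w.2.2, w.2.1 / w.2.2, 1) : V3) (w.1 / w.2.2, w.2.1 / w.2.2, 1) = 0 := by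
    have hc' : conj w.2.2 ≠ 0 := (map_ne_zero _).2 hc
    rcases mul_eq_zero.1 hiso with h1 | h1
    · exact absurd h1 hc
    · exact (mul_eq_zero.1 h1).resolve_left hc'
  have hf := herm_formula q _ _ (iso_one hiso')
  have hs := h.small
  rw [hw, herm_smul_right, norm_mul, Complex.norm_conj, mul_pow] at hs
  have hu := hq.one
  have hd : 0 ≤ ‖q.2 - w.2.1 / w.2.2‖ ^ 2 := by positivity
  have h2 : hgt q ^ 2 ≤ 4 * ‖herm (vec q) ((w.1 / w.2.2, w.2.1 / w.2.2, 1) : V3)‖ ^ 2 := by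
    rw [hf]
    nlinarith [sq_nonneg (2 * (q.1.im + (q.2 * conj (w.2.1 / w.2.2)).im - (w.1 / w.2.2).im))]
  have hcp : 0 < ‖w.2.2‖ ^ 2 := by positivity
  by_contra hcon
  push Not at hcon
  have h3 : 4 * (hgt q ^ 2) ≤ ‖w.2.2‖ ^ 2 * (hgt q ^ 2) := by nlinarith [sq_nonneg (hgt q)]
  have h4 : ‖w.2.2‖ ^ 2 * (hgt q ^ 2) ≤ ‖w.2.2‖ ^ 2 *
      (4 * ‖herm (vec q) ((w.1 / w.2.2, w.2.1 / w.2.2, 1) : V3)‖ ^ 2) :=
    mul_le_mul_of_nonneg_left h2 hcp.le
  nlinarith

theorem nv_one {q : Pt} (hq : RP q) {a b : ℂ} (h : NV q (a, b, 1)) :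
    (hgt q + ‖q.2 - b‖ ^ 2) ^ 2 + (2 * (q.1.im + (q.2 * conj b).im - a.im)) ^ 2 < 4 * hgt q ∧
      2 * a.re + ‖b‖ ^ 2 = 0 ∧ (b = 0 ∨ ‖b‖ ^ 2 = 1) := by
  have h1 := iso_one h.iso
  have h2 := herm_formula q a b h1
  have h3 := h.small
  have h4 : (hgt q + ‖q.2 - b‖ ^ 2) ^ 2 + (2 * (q.1.im + (q.2 * conj b).im - a.im)) ^ 2
      < 4 * hgt q := by linarith
  refine ⟨h4, h1, ?_⟩
  have hu := hq.one
  have hD : ‖q.2 - b‖ ^ 2 < 1 := by
    by_contra hcon
    push Not at hcon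
    nlinarith [sq_nonneg (2 * (q.1.im + (q.2 * conj b).im - a.im)), sq_nonneg (hgt q - 1)]
  have hb : ‖b‖ ^ 2 < 3 := by
    have h5 := hq.z3
    rw [nsq] at h5 hD ⊢
    simp only [Complex.sub_re, Complex.sub_im] at hD
    nlinarith [sq_nonneg ((q.2.re - b.re) + 2 * q.2.re), sq_nonneg ((q.2.im - b.im) + 2 * q.2.im),
      sq_nonneg (b.re - 3 * q.2.re), sq_nonneg (b.im - 3 * q.2.im)]
  obtain ⟨n, hn, hn2, hn0⟩ := eis_norm_int h.lat.2.1
  simp only at hn
  rw [hn] at hb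
  have hn3 : n < 3 := by exact_mod_cast hb
  have : n = 0 ∨ n = 1 := by omega
  rcases this with h5 | h5
  · left
    rw [h5] at hn
    have : ‖b‖ = 0 := by
      have := pow_eq_zero_iff (two_ne_zero) |>.1 (by rw [hn]; norm_num : ‖b‖ ^ 2 = 0)
      exact this
    exact norm_eq_zero.1 this
  · right
    rw [hn, h5]; norm_num

theorem nv_zero {q : Pt} (hq : RP q) {a : ℂ} (h : NV q (a, 0, 1)) :
    ∃ k : ℤ, a = th * k ∧
      (hgt q + ‖q.2‖ ^ 2) ^ 2 + (2 * (q.1.im - Real.sqrt 3 * k)) ^ 2 < 4 * hgt q ∧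
      (k = 0 ∨ (k = 1 ∧ 0 < q.1.im) ∨ (k = -1 ∧ q.1.im < 0)) := by
  obtain ⟨h1, h2, -⟩ := nv_one hq h
  obtain ⟨m, n, hmn⟩ := h.lat.1
  simp only at hmn
  have hre : a.re = 0 := by
    rw [norm_zero] at h2
    linarith
  rw [hmn, eis_re] at hre
  have hn : n = 2 * m := by
    have : (n : ℝ) = 2 * m := by linarith
    exact_mod_cast this
  have ha : a = th * m := by
    rw [hmn, hn, th_eq]; push_cast; ring
  have haim : a.im = Real.sqrt 3 * m := by
    rw [ha]; simp [th]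
  rw [haim] at h1
  simp only [sub_zero, map_zero, mul_zero, Complex.zero_im, add_zero] at h1
  refine ⟨m, ha, h1, ?_⟩
  have hu := hq.one
  have hd : 0 ≤ ‖q.2‖ ^ 2 := by positivity
  have him := abs_le.1 hq.im
  have hV : (2 * (q.1.im - Real.sqrt 3 * m)) ^ 2 < 4 := by
    nlinarith [sq_nonneg (hgt q - 2)]
  have h5 : 2 * (q.1.im - Real.sqrt 3 * m) < 2 := by nlinarith
  have h6 : -2 < 2 * (q.1.im - Real.sqrt 3 * m) := by nlinarith
  have hs := s3lo
  have hs' := s3hi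
  have hm1 : m < 2 := by
    by_contra hcon
    push Not at hcon
    have : (2 : ℝ) ≤ m := by exact_mod_cast hcon
    nlinarith
  have hm2 : -2 < m := by
    by_contra hcon
    push Not at hcon
    have : (m : ℝ) ≤ -2 := by exact_mod_cast hcon
    nlinarith
  have hm3 : m = 0 ∨ m = 1 ∨ m = -1 := by omega
  rcases hm3 with h7 | h7 | h7
  · exact Or.inl h7
  · right; left
    refine ⟨h7, ?_⟩
    rw [h7] at h6
    push_cast at h6
    linarith
  · right; right
    refine ⟨h7, ?_⟩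
    rw [h7] at h5
    push_cast at h5
    linarith

theorem norm_th : ‖th‖ ^ 2 = 3 := by
  rw [nsq]
  simp only [th]
  have := sq3
  linear_combination this

theorem nv_th {q : Pt} (hq : RP q) {a b : ℂ} (h : NV q (a, b, th)) :
    b = 0 ∧ ∃ m : ℤ, a = m ∧
      3 * ((hgt q + ‖q.2‖ ^ 2) ^ 2 + (2 * (q.1.im + m * (Real.sqrt 3 / 3))) ^ 2) < 4 * hgt q ∧
      ((m = 1 ∧ q.1.im < 0) ∨ (m = -1 ∧ 0 < q.1.im)) := by
  obtain ⟨m, n, hmn⟩ := h.lat.1
  simp only at hmn
  have hth0 : th ≠ 0 := by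
    intro h0
    have := norm_th
    rw [h0] at this
    norm_num at this
  have hre : 2 * Real.sqrt 3 * a.im + ‖b‖ ^ 2 = 0 := by
    have h1 := congrArg Complex.re h.iso
    unfold herm at h1
    simp only [th, Complex.add_re, Complex.mul_re, Complex.conj_re, Complex.conj_im,
      Complex.zero_re] at h1
    rw [nsq]
    linarith
  have haim : a.im = n * (Real.sqrt 3 / 2) := by rw [hmn, eis_im]
  have hb3 : ‖b‖ ^ 2 = 3 * ((-n : ℤ) : ℝ) := by
    rw [haim] at hre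
    push_cast
    have := sq3
    linear_combination hre - n * this
  obtain ⟨β, hβ, hbβ⟩ := th_dvd h.lat.2.1 hb3
  simp only at hbβ
  have hw : ((a, b, th) : V3) = th • ((a / th, β, 1) : V3) := by
    refine Prod.ext ?_ (Prod.ext ?_ ?_)
    · simp only [Prod.smul_fst, smul_eq_mul]; field_simp
    · simp only [Prod.smul_snd, Prod.smul_fst, smul_eq_mul]; exact hbβ
    · simp only [Prod.smul_snd, smul_eq_mul, mul_one]
  have hiso := h.iso
  rw [hw, herm_smul_left, herm_smul_right] at hiso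
  have hiso' : herm ((a / th, β, 1) : V3) (a / th, β, 1) = 0 := by
    have hc' : conj th ≠ 0 := (map_ne_zero _).2 hth0
    rcases mul_eq_zero.1 hiso with h1 | h1
    · exact absurd h1 hth0
    · exact (mul_eq_zero.1 h1).resolve_left hc'
  have hf := herm_formula q _ _ (iso_one hiso')
  have hs := h.small
  rw [hw, herm_smul_right, norm_mul, Complex.norm_conj, mul_pow, norm_th] at hs
  have hmain : 3 * ((hgt q + ‖q.2 - β‖ ^ 2) ^ 2 +
      (2 * (q.1.im + (q.2 * conj β).im - (a / th).im)) ^ 2) < 4 * hgt q := by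
    rw [← hf]; linarith
  have hu := hq.one
  have hD : ‖q.2 - β‖ ^ 2 < 1 / 4 := by
    by_contra hcon
    push Not at hcon
    nlinarith [sq_nonneg (2 * (q.1.im + (q.2 * conj β).im - (a / th).im)), sq_nonneg (hgt q - 1)]
  have hβ0 : β = 0 := by
    obtain ⟨k, hk, -, hk0⟩ := eis_norm_int hβ
    have h5 : ‖q.2‖ ^ 2 ≤ ‖q.2 - β‖ ^ 2 :=
      pow_le_pow_left₀ (norm_nonneg _) (hq.near β hβ) 2
    have h6 : ‖β‖ ^ 2 < 1 := by
      rw [nsq] at h5 ⊢
      rw [nsq] at h5 hD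
      simp only [Complex.sub_re, Complex.sub_im] at hD h5
      nlinarith [sq_nonneg ((q.2.re - β.re) + q.2.re), sq_nonneg ((q.2.im - β.im) + q.2.im)]
    rw [hk] at h6
    have h7 : k < 1 := by exact_mod_cast h6
    have h8 : k = 0 := by omega
    rw [h8] at hk
    have := pow_eq_zero_iff (two_ne_zero) |>.1 (by rw [hk]; norm_num : ‖β‖ ^ 2 = 0)
    exact norm_eq_zero.1 this
  have hb0 : b = 0 := by rw [hbβ, hβ0, mul_zero]
  refine ⟨hb0, m, ?_⟩
  have hn : n = 0 := by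
    rw [hb0, norm_zero] at hb3
    have : (n : ℝ) = 0 := by push_cast at hb3; linarith
    exact_mod_cast this
  have ha : a = m := by rw [hmn, hn]; push_cast; ring
  have haim2 : (a / th).im = -(m * (Real.sqrt 3 / 3)) := by
    have h9 : a / th = -(m / 3 : ℝ) * th := by
      rw [div_eq_iff hth0, ha]
      have h10 : th * th = -3 := by
        rw [th_eq]
        linear_combination (4 : ℂ) * om_sq
      push_cast
      linear_combination (m / 3 : ℂ) * h10
    rw [h9]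
    simp [th]
    ring
  rw [hβ0, haim2] at hmain
  simp only [sub_zero, map_zero, mul_zero, Complex.zero_im, add_zero, sub_neg_eq_add] at hmain
  refine ⟨ha, hmain, ?_⟩
  have hd : 0 ≤ ‖q.2‖ ^ 2 := by positivity
  have him := abs_le.1 hq.im
  have hV : (2 * (q.1.im + m * (Real.sqrt 3 / 3))) ^ 2 < 1 / 3 := by
    nlinarith [sq_nonneg (hgt q - 1)]
  have hs := s3lo
  have hs' := s3hi
  have hsq := sq3
  have hr : (Real.sqrt 3 / 3) ^ 2 = 1 / 3 := by nlinarith
  rw [← hr] at hV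
  have hlt := abs_lt.1 (abs_lt_of_sq_lt_sq hV (by positivity))
  have hm1 : m < 2 := by
    by_contra hcon
    push Not at hcon
    have : (2 : ℝ) ≤ m := by exact_mod_cast hcon
    nlinarith
  have hm2 : -2 < m := by
    by_contra hcon
    push Not at hcon
    have : (m : ℝ) ≤ -2 := by exact_mod_cast hcon
    nlinarith
  have hm0 : m ≠ 0 := by
    intro h0
    apply h.prim (0, 0, 1) ⟨Eis.zero_mem, Eis.zero_mem, ⟨1, 0, by simp⟩⟩
    rw [ha, hb0, h0]
    refine Prod.ext ?_ (Prod.ext ?_ ?_)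
    · simp
    · simp
    · simp
  have hm3 : m = 1 ∨ m = -1 := by omega
  rcases hm3 with h7 | h7
  · left
    refine ⟨h7, ?_⟩
    rw [h7] at hlt
    push_cast at hlt
    linarith [hlt.2]
  · right
    refine ⟨h7, ?_⟩
    rw [h7] at hlt
    push_cast at hlt
    linarith [hlt.1]

/-- vectors with `b` a unit: `Re (ζ b*) > 0` -/
theorem nv_unit_pos {q : Pt} (hq : RP q) {a b : ℂ} (h : NV q (a, b, 1)) (hb : ‖b‖ ^ 2 = 1) :
    0 < q.2.re * b.re + q.2.im * b.im := by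
  obtain ⟨h1, -, -⟩ := nv_one hq h
  have hu := hq.one
  have hD : ‖q.2 - b‖ ^ 2 < 1 := by
    by_contra hcon
    push Not at hcon
    nlinarith [sq_nonneg (2 * (q.1.im + (q.2 * conj b).im - a.im)), sq_nonneg (hgt q - 1)]
  rw [nsq] at hD hb
  simp only [Complex.sub_re, Complex.sub_im] at hD
  nlinarith [sq_nonneg q.2.re, sq_nonneg q.2.im]

/-- for a unit `b` the imaginary part is small -/
theorem nv_unit_V {q : Pt} (hq : RP q) {a b : ℂ} (h : NV q (a, b, 1)) (hb : ‖b‖ ^ 2 = 1) :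
    (2 * (q.1.im + (q.2 * conj b).im - a.im)) ^ 2 < 3 := by
  obtain ⟨h1, -, -⟩ := nv_one hq h
  by_contra hcon
  push Not at hcon
  have hu := hq.one
  have hD : ‖q.2 - b‖ ^ 2 < 1 / 4 := by
    by_contra hcon2
    push Not at hcon2
    nlinarith [sq_nonneg (hgt q - 7 / 4)]
  have h5 : ‖q.2‖ ^ 2 ≤ ‖q.2 - b‖ ^ 2 :=
    pow_le_pow_left₀ (norm_nonneg _) (hq.near b h.lat.2.1) 2
  rw [nsq] at h5 hb
  rw [nsq] at h5 hD
  simp only [Complex.sub_re, Complex.sub_im] at hD h5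
  nlinarith [sq_nonneg ((q.2.re - b.re) + q.2.re), sq_nonneg ((q.2.im - b.im) + q.2.im)]

theorem nv_unit_unique {q : Pt} (hq : RP q) {a a' b : ℂ} (h : NV q (a, b, 1))
    (h' : NV q (a', b, 1)) (hb : ‖b‖ ^ 2 = 1) : a = a' := by
  have hV := nv_unit_V hq h hb
  have hV' := nv_unit_V hq h' hb
  obtain ⟨-, h2, -⟩ := nv_one hq h
  obtain ⟨-, h2', -⟩ := nv_one hq h'
  obtain ⟨m, n, hmn⟩ := h.lat.1
  obtain ⟨m', n', hmn'⟩ := h'.lat.1
  simp only at hmn hmn'
  have hn : n = 2 * m + 1 := by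
    rw [hb, hmn, eis_re] at h2
    have : (n : ℝ) = 2 * m + 1 := by linarith
    exact_mod_cast this
  have hn' : n' = 2 * m' + 1 := by
    rw [hb, hmn', eis_re] at h2'
    have : (n' : ℝ) = 2 * m' + 1 := by linarith
    exact_mod_cast this
  have him : a.im = (2 * m + 1) * (Real.sqrt 3 / 2) := by
    rw [hmn, eis_im, hn]; push_cast; ring
  have him' : a'.im = (2 * m' + 1) * (Real.sqrt 3 / 2) := by
    rw [hmn', eis_im, hn']; push_cast; ring
  rw [him] at hV
  rw [him'] at hV'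
  have hr : (Real.sqrt 3) ^ 2 = 3 := by have := sq3; nlinarith
  have l1 := abs_lt.1 (abs_lt_of_sq_lt_sq (hV.trans_eq hr.symm) s3pos.le)
  have l2 := abs_lt.1 (abs_lt_of_sq_lt_sq (hV'.trans_eq hr.symm) s3pos.le)
  have hs := s3pos
  have k1 : m - m' < 1 := by
    by_contra hcon
    push Not at hcon
    have : (1 : ℝ) ≤ (m : ℝ) - m' := by exact_mod_cast hcon
    nlinarith [l1.1, l2.2]
  have k2 : -1 < m - m' := by
    by_contra hcon
    push Not at hcon
    have : (m : ℝ) - m' ≤ -1 := by exact_mod_cast hcon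
    nlinarith [l1.2, l2.1]
  have k3 : m = m' := by omega
  rw [hmn, hmn', hn, hn', k3]

/-- the classes of normalised vectors -/
def AB (q : Pt) (β : ℂ) : Set V3 := {w | ∃ a b : ℂ, w = (a, b, 1) ∧ NV q w ∧ (b = β ∨ b = -β)}

def AX (q : Pt) : Set V3 := {w | NV q w ∧ ((∃ a : ℂ, w = (a, 0, 1) ∧ a ≠ 0) ∨
  (∃ a b : ℂ, w = (a, b, th)))}

theorem AB_sub {q : Pt} (hq : RP q) {β : ℂ} (hβ : ‖β‖ ^ 2 = 1) : (AB q β).Subsingleton := by
  rintro w ⟨a, b, rfl, hw, hb⟩ w' ⟨a', b', rfl, hw', hb'⟩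
  have n1 : ‖b‖ ^ 2 = 1 := by
    rcases hb with rfl | rfl
    · exact hβ
    · rw [norm_neg]; exact hβ
  have n2 : ‖b'‖ ^ 2 = 1 := by
    rcases hb' with rfl | rfl
    · exact hβ
    · rw [norm_neg]; exact hβ
  have p1 := nv_unit_pos hq hw n1
  have p2 := nv_unit_pos hq hw' n2
  have hbb : b = b' := by
    rcases hb with rfl | rfl <;> rcases hb' with rfl | rfl
    · rfl
    · exfalso
      simp only [Complex.neg_re, Complex.neg_im] at p2
      linarith
    · exfalso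
      simp only [Complex.neg_re, Complex.neg_im] at p1
      linarith
    · rfl
  subst hbb
  rw [nv_unit_unique hq hw hw' n1]

theorem AX_sub {q : Pt} (hq : RP q) : (AX q).Subsingleton := by
  have hu := hq.one
  have hd : 0 ≤ ‖q.2‖ ^ 2 := by positivity
  have hsq := sq3
  have mixed : ∀ (k m : ℤ), (hgt q + ‖q.2‖ ^ 2) ^ 2 + (2 * (q.1.im - Real.sqrt 3 * k)) ^ 2
      < 4 * hgt q → 3 * ((hgt q + ‖q.2‖ ^ 2) ^ 2 + (2 * (q.1.im + m * (Real.sqrt 3 / 3))) ^ 2)
      < 4 * hgt q → ((k = 1 ∧ m = -1) ∨ (k = -1 ∧ m = 1)) → False := by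
    intro k m e1 e2 hkm
    have key : (hgt q - 1) ^ 2 + 2 * ‖q.2‖ ^ 2 * hgt q + (‖q.2‖ ^ 2) ^ 2 +
        4 * (q.1.im - Real.sqrt 3 * k / 2) ^ 2 < 0 := by
      rcases hkm with ⟨rfl, rfl⟩ | ⟨rfl, rfl⟩
      · push_cast at e1 e2 ⊢
        nlinarith
      · push_cast at e1 e2 ⊢
        nlinarith
    have : 0 ≤ (hgt q - 1) ^ 2 + 2 * ‖q.2‖ ^ 2 * hgt q + (‖q.2‖ ^ 2) ^ 2 +
        4 * (q.1.im - Real.sqrt 3 * k / 2) ^ 2 := by positivity
    linarith
  have mk : ∀ w ∈ AX q, (∃ k : ℤ, w = (th * k, 0, 1) ∧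
      (hgt q + ‖q.2‖ ^ 2) ^ 2 + (2 * (q.1.im - Real.sqrt 3 * k)) ^ 2 < 4 * hgt q ∧
      ((k = 1 ∧ 0 < q.1.im) ∨ (k = -1 ∧ q.1.im < 0))) ∨
      (∃ m : ℤ, w = ((m : ℂ), 0, th) ∧
      3 * ((hgt q + ‖q.2‖ ^ 2) ^ 2 + (2 * (q.1.im + m * (Real.sqrt 3 / 3))) ^ 2) < 4 * hgt q ∧
      ((m = 1 ∧ q.1.im < 0) ∨ (m = -1 ∧ 0 < q.1.im))) := by
    rintro w ⟨hN, ⟨a, rfl, ha⟩ | ⟨a, b, rfl⟩⟩
    · left
      obtain ⟨k, hk, h1, h2⟩ := nv_zero hq hN
      refine ⟨k, by rw [hk], h1, ?_⟩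
      rcases h2 with h2 | h2
      · exfalso
        apply ha
        rw [hk, h2]; simp
      · exact h2
    · right
      obtain ⟨hb, m, hm, h1, h2⟩ := nv_th hq hN
      exact ⟨m, by rw [hb, hm], h1, h2⟩
  intro w hw w' hw'
  rcases mk w hw with ⟨k, rfl, h1, h2⟩ | ⟨m, rfl, h1, h2⟩ <;>
  rcases mk w' hw' with ⟨k', rfl, h1', h2'⟩ | ⟨m', rfl, h1', h2'⟩
  · have : k = k' := by
      rcases h2 with ⟨a1, a2⟩ | ⟨a1, a2⟩ <;> rcases h2' with ⟨b1, b2⟩ | ⟨b1, b2⟩
      · rw [a1, b1]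
      · linarith
      · linarith
      · rw [a1, b1]
    rw [this]
  · exfalso
    refine mixed k m' h1 h1' ?_
    rcases h2 with ⟨a1, a2⟩ | ⟨a1, a2⟩ <;> rcases h2' with ⟨b1, b2⟩ | ⟨b1, b2⟩
    · linarith
    · exact Or.inl ⟨a1, b1⟩
    · exact Or.inr ⟨a1, b1⟩
    · linarith
  · exfalso
    refine mixed k' m h1' h1 ?_
    rcases h2 with ⟨a1, a2⟩ | ⟨a1, a2⟩ <;> rcases h2' with ⟨b1, b2⟩ | ⟨b1, b2⟩
    · linarith
    · exact Or.inr ⟨b1, a1⟩
    · exact Or.inl ⟨b1, a1⟩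
    · linarith
  · have : m = m' := by
      rcases h2 with ⟨a1, a2⟩ | ⟨a1, a2⟩ <;> rcases h2' with ⟨b1, b2⟩ | ⟨b1, b2⟩
      · rw [a1, b1]
      · linarith
      · linarith
      · rw [a1, b1]
    rw [this]

theorem sub_cover {A : Set V3} (h : A.Subsingleton) : ∃ x, ∀ w ∈ A, w = x := by
  rcases A.eq_empty_or_nonempty with he | ⟨x, hx⟩
  · exact ⟨w0, fun w hw => by rw [he] at hw; exact absurd hw (Set.notMem_empty w)⟩
  · exact ⟨x, fun w hw => h hw hx⟩

theorem norm_om : ‖om‖ ^ 2 = 1 := by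
  have := eis_nsq 0 1
  simpa using this

theorem cover {q : Pt} (hqS : q ∈ SD) (hq : RP q) :
    ∃ F : Finset V3, F.card ≤ 36 ∧ ∀ w ∈ Orb, uval w q < 1 → w ∈ F := by
  obtain ⟨x2, h2⟩ := sub_cover (AX_sub hq)
  obtain ⟨x3, h3⟩ := sub_cover (AB_sub hq (β := 1) (by simp))
  obtain ⟨x4, h4⟩ := sub_cover (AB_sub hq (β := om) norm_om)
  obtain ⟨x5, h5⟩ := sub_cover (AB_sub hq (β := om * om) (by
    rw [norm_mul, mul_pow, norm_om, mul_one]))
  let F6 : Finset V3 := {w0, (0, 0, 1), x2, x3, x4, x5}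
  refine ⟨(U6 ×ˢ F6).image (fun z => z.1 • z.2), ?_, ?_⟩
  · refine Finset.card_image_le.trans ?_
    rw [Finset.card_product]
    have h6 : F6.card ≤ 6 := Finset.card_le_six
    have h7 := U6_card
    calc U6.card * F6.card ≤ 6 * 6 := Nat.mul_le_mul h7 h6
      _ = 36 := rfl
  · intro w hw hu
    have hN := orb_NV hqS hw hu
    have fin : ∀ (e : ℂ) (w' : V3), e ∈ Eis → ‖e‖ ^ 2 = 1 → w = e • w' → w' ∈ F6 →
        w ∈ (U6 ×ˢ F6).image (fun z => z.1 • z.2) := by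
      intro e w' he hn hwe hF
      exact Finset.mem_image.2 ⟨(e, w'), Finset.mem_product.2 ⟨unit_mem he hn, hF⟩, hwe.symm⟩
    by_cases hc : w.2.2 = 0
    · have hb : w.2.1 = 0 := by
        have hiso := hN.iso
        unfold herm at hiso
        rw [hc] at hiso
        simp only [map_zero, mul_zero, zero_mul, add_zero, zero_add] at hiso
        rcases mul_eq_zero.1 hiso with h | h
        · exact h
        · exact (map_eq_zero _).1 h
      have hn := orb_first hw hb hc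
      refine fin w.1 w0 hN.lat.1 hn ?_ (by simp [F6])
      refine Prod.ext ?_ (Prod.ext ?_ ?_)
      · simp [w0]
      · rw [hb]; simp [w0]
      · rw [hc]; simp [w0]
    · have hlt := c_bound hq hN hc
      obtain ⟨n, hn, hn2, hn0⟩ := eis_norm_int hN.lat.2.2
      rw [hn] at hlt
      have hn4 : n < 4 := by exact_mod_cast hlt
      have hnz : n ≠ 0 := by
        intro h0
        rw [h0] at hn
        have := pow_eq_zero_iff (two_ne_zero) |>.1 (by rw [hn]; norm_num : ‖w.2.2‖ ^ 2 = 0)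
        exact hc (norm_eq_zero.1 this)
      have hn3 : n = 1 ∨ n = 3 := by omega
      rcases hn3 with h1 | h1
      · have hn1 : ‖w.2.2‖ ^ 2 = 1 := by rw [hn, h1]; norm_num
        have hcc := conj_mul_of_norm hn1
        have hce := eis_conj hN.lat.2.2
        have hcn : ‖conj w.2.2‖ ^ 2 = 1 := by rw [Complex.norm_conj]; exact hn1
        have hN' := hN.smul hce hcn
        have hwe : w = w.2.2 • (conj w.2.2 • w) := by
          rw [smul_smul, mul_comm, hcc, one_smul]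
        have hw' : conj w.2.2 • w = (conj w.2.2 * w.1, conj w.2.2 * w.2.1, 1) := by
          refine Prod.ext ?_ (Prod.ext ?_ ?_)
          · rfl
          · rfl
          · simp only [Prod.smul_snd, smul_eq_mul]; exact hcc
        refine fin w.2.2 (conj w.2.2 • w) hN.lat.2.2 hn1 hwe ?_
        rw [hw'] at hN' ⊢
        generalize conj w.2.2 * w.1 = a at hN' ⊢
        generalize conj w.2.2 * w.2.1 = b at hN' ⊢
        obtain ⟨-, -, hb⟩ := nv_one hq hN'
        simp only [F6, Finset.mem_insert, Finset.mem_singleton]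
        rcases hb with rfl | hb
        · by_cases ha : a = 0
          · right; left
            rw [ha]
          · right; right; left
            exact h2 _ ⟨hN', Or.inl ⟨a, rfl, ha⟩⟩
        · have hmem := unit_mem hN'.lat.2.1 hb
          simp only [U6, Finset.mem_insert, Finset.mem_singleton] at hmem
          rcases hmem with h | h | h | h | h | h
          · right; right; right; left
            exact h3 _ ⟨a, b, rfl, hN', Or.inl h⟩
          · right; right; right; left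
            exact h3 _ ⟨a, b, rfl, hN', Or.inr h⟩
          · right; right; right; right; left
            exact h4 _ ⟨a, b, rfl, hN', Or.inl h⟩
          · right; right; right; right; left
            exact h4 _ ⟨a, b, rfl, hN', Or.inr h⟩
          · right; right; right; right; right
            exact h5 _ ⟨a, b, rfl, hN', Or.inl h⟩
          · right; right; right; right; right
            exact h5 _ ⟨a, b, rfl, hN', Or.inr h⟩
      · have hn1 : ‖w.2.2‖ ^ 2 = 3 * ((1 : ℤ) : ℝ) := by rw [hn, h1]; norm_num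
        obtain ⟨e, he, hce⟩ := th_dvd hN.lat.2.2 hn1
        have hen : ‖e‖ ^ 2 = 1 := by
          rw [hce, norm_mul, mul_pow, norm_th] at hn1
          push_cast at hn1
          linarith
        have hee := conj_mul_of_norm hen
        have hcn : ‖conj e‖ ^ 2 = 1 := by rw [Complex.norm_conj]; exact hen
        have hN' := hN.smul (eis_conj he) hcn
        have hwe : w = e • (conj e • w) := by
          rw [smul_smul, mul_comm, hee, one_smul]
        have hw' : conj e • w = (conj e * w.1, conj e * w.2.1, th) := by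
          refine Prod.ext ?_ (Prod.ext ?_ ?_)
          · rfl
          · rfl
          · simp only [Prod.smul_snd, smul_eq_mul]
            rw [hce, mul_left_comm, hee, mul_one]
        refine fin e (conj e • w) he hen hwe ?_
        rw [hw'] at hN' ⊢
        simp only [F6, Finset.mem_insert, Finset.mem_singleton]
        right; right; left
        exact h2 _ ⟨hN', Or.inr ⟨_, _, rfl⟩⟩

theorem orb_smul {w : V3} (hw : w ∈ Orb) {γ : V3 ≃ₗ[ℂ] V3} (hγ : γ ∈ Gam) : γ w ∈ Orb := by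
  obtain ⟨δ, hδ, rfl⟩ := hw
  exact ⟨γ * δ, Gam.mul_mem hγ hδ, rfl⟩

/-- module UP with its inputs -/
theorem upper_P_aux
    (act_mem : ∀ {g : V3 ≃ₗ[ℂ] V3}, g ∈ UG → ∀ {p : Pt}, p ∈ SD → act g p ∈ SD)
    (uval_act : ∀ {g : V3 ≃ₗ[ℂ] V3}, g ∈ UG → ∀ (w : V3) {p : Pt}, p ∈ SD →
      uval w (act g p) = uval (g⁻¹ w) p)
    (reduce : ∀ {p : Pt}, p ∈ SD → ∃ γ ∈ Gam,
      (∀ w ∈ Orb, 1 / hgt (act γ p) ≤ uval w (act γ p)) ∧
      (∀ b ∈ Eis, ‖(act γ p).2‖ ≤ ‖(act γ p).2 - b‖) ∧ ‖(act γ p).2‖ ^ 2 ≤ 1 / 3 ∧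
      |(act γ p).1.im| ≤ Real.sqrt 3 / 2 ∧ 1 ≤ hgt (act γ p))
    {p : Pt} (hp : p ∈ SD) :
    ∑' w : Orb, ENNReal.ofReal (psi (1 / uval w p)) ≤ ENNReal.ofReal 36 := by
  obtain ⟨γ, hγ, -, r1, r2, r3, r4⟩ := reduce hp
  obtain ⟨F, hF36, hF⟩ := cover (act_mem hγ.1 hp) ⟨r1, r2, r3, r4⟩
  have hinj : ∀ w ∈ Orb, uval w p < 1 → γ w ∈ F := by
    intro w hw hu
    refine hF _ (orb_smul hw hγ) ?_
    rw [uval_act hγ.1 _ hp]
    have : γ⁻¹ (γ w) = w := γ.symm_apply_apply w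
    rw [this]
    exact hu
  rw [ENNReal.tsum_eq_iSup_sum]
  apply iSup_le
  intro s
  have hterm : ∀ w ∈ s, ENNReal.ofReal (psi (1 / uval (w : V3) p)) ≤
      if uval (w : V3) p < 1 then 1 else 0 := by
    intro w _
    unfold psi
    by_cases h1 : 1 < 1 / uval (w : V3) p
    · have hpos : 0 < uval (w : V3) p := by
        by_contra hcon
        push Not at hcon
        have : 1 / uval (w : V3) p ≤ 0 := one_div_nonpos.2 hcon
        linarith
      rw [if_pos h1, if_pos ((one_lt_div hpos).1 h1)]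
      simp
    · rw [if_neg h1]
      simp
  refine (Finset.sum_le_sum hterm).trans ?_
  rw [← Finset.sum_filter, Finset.sum_const, nsmul_eq_mul, mul_one]
  have hcard : (s.filter (fun w : Orb => uval (w : V3) p < 1)).card ≤ 36 := by
    refine le_trans (Finset.card_le_card_of_injOn (fun w : Orb => γ (w : V3)) ?_ ?_) hF36
    · intro w hw
      exact hinj w w.2 (Finset.mem_filter.1 hw).2
    · intro w _ w' _ h
      exact Subtype.ext (γ.injective h)
  have e36 : ENNReal.ofReal 36 = ((36 : ℕ) : ENNReal) := by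
    rw [← ENNReal.ofReal_natCast]; norm_num
  rw [e36]
  exact_mod_cast hcard

end Pool.Agent.Helper34.Pic
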